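import Mathlib
import Pool.Agent.U401.DD.Stm5
import Pool.Agent.U401.DD.BDC2

set_option autoImplicit false

/-! Project EE, package BW: bounds of the complex coefficients -/

namespace Pool.Agent.U423.EE

open Pool.Agent.U401.DD Pool.Agent.U401.DD.BDCAux Pool.Agent.U401.DD.BDC2Aux

theorem cut_nonneg (N j : ℕ) : 0 ≤ cut N j := by
  unfold cut
  split_ifs <;> norm_num

theorem cut_le (N j : ℕ) : cut N j ≤ 1 / 2 := by
  unfold cut
  split_ifs <;> norm_num

theorem sigw_rot (bet : ℕ → ℕ → ℕ → ℝ) (φ : ℕ → ℝ) (k l n : ℕ) :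
    sigw bet φ l n k = sigw bet φ k l n := by
  unfold sigw
  ring

variable {bet : ℕ → ℕ → ℕ → ℝ} {lam : ℕ → ℝ} {K : ℝ}

theorem sigw_plane (h : Dat bet lam K) (φ : ℕ → ℝ) {k l n j : ℕ} (hk : k / 2 = j)
    (hl : l / 2 = j) : sigw bet φ k l n = 2 / 3 * (φ (n / 2) - φ j) * bet k l n := by
  unfold sigw
  have hc := h.cyc k l n
  rw [hk, hl]
  have : bet l n k + bet n k l = - bet k l n := by linarith
  linear_combination (2 / 3 * φ j) * this

theorem sigw_pow (h : Dat bet lam K) (N : ℕ) {k l n j m : ℕ} (hk : k / 2 = j) (hl : l / 2 = j)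
    (hn : n / 2 = m) : sigw bet (cut N) k l n ^ 4 ≤ 16 * K * (GG lam j ^ 3 * GG lam m ^ 2) := by
  rw [sigw_plane h (cut N) hk hl, hn]
  have b := h.bd2 k l n (hk.trans hl.symm)
  rw [hk, hn] at b
  have c1 := cut_nonneg N m
  have c2 := cut_nonneg N j
  have c3 := cut_le N m
  have c4 := cut_le N j
  have h1 : |2 / 3 * (cut N m - cut N j)| ≤ 1 := by
    rw [abs_le]
    constructor <;> linarith
  have h2 : (2 / 3 * (cut N m - cut N j)) ^ 4 ≤ 1 := by
    have h3 := pow_le_pow_left₀ (abs_nonneg _) h1 4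
    rwa [← abs_pow, abs_of_nonneg (by positivity), one_pow] at h3
  have b0 : 0 ≤ bet k l n ^ 4 := by positivity
  calc (2 / 3 * (cut N m - cut N j) * bet k l n) ^ 4 =
      (2 / 3 * (cut N m - cut N j)) ^ 4 * bet k l n ^ 4 := by ring
    _ ≤ 1 * bet k l n ^ 4 := mul_le_mul_of_nonneg_right h2 b0
    _ ≤ 16 * K * (GG lam j ^ 3 * GG lam m ^ 2) := by nlinarith

/-- **BW** -/
theorem t_BW : S_BW := by
  intro bet lam K h
  have K1 := h.dat.K1
  refine ⟨16 * K, by linarith, ?_⟩
  intro N κ l m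
  refine ⟨?_, ?_, ?_, ?_, ?_⟩
  · intro hN
    have h3 : ‖cx (sigw bet (cut N)) κ l m‖ ≤ 0 := by
      apply cx_le
      intro a ha b hb c hc
      unfold sigw
      rw [half _ a ha, half _ b hb, half _ c hc]
      have hc' := h.dat.cyc (2 * κ.1 + a) (2 * l.1 + b) (2 * m.1 + c)
      rcases hN with ⟨p1, p2, p3⟩ | ⟨p1, p2, p3⟩
      · have e1 : cut N κ.1 = 1 / 2 := if_pos p1
        have e2 : cut N l.1 = 1 / 2 := if_pos p2
        have e3 : cut N m.1 = 1 / 2 := if_pos p3
        rw [e1, e2, e3]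
        have : (2 / 3 : ℝ) * (1 / 2 * bet (2 * κ.1 + a) (2 * l.1 + b) (2 * m.1 + c) +
            1 / 2 * bet (2 * l.1 + b) (2 * m.1 + c) (2 * κ.1 + a) +
            1 / 2 * bet (2 * m.1 + c) (2 * κ.1 + a) (2 * l.1 + b)) = 0 := by
          linear_combination (1 / 3) * hc'
        rw [this, abs_zero]
      · have e1 : cut N κ.1 = 0 := if_neg (by omega)
        have e2 : cut N l.1 = 0 := if_neg (by omega)
        have e3 : cut N m.1 = 0 := if_neg (by omega)
        rw [e1, e2, e3]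
        simp
    exact norm_le_zero_iff.1 h3
  · apply cx_pow_le
    intro a ha b hb c hc
    have ea := half κ.1 a ha
    have eb := half l.1 b hb
    have ec := half m.1 c hc
    have q1 := h.bd4 (2 * κ.1 + a) (2 * l.1 + b) (2 * m.1 + c)
    have q2 := h.bd4 (2 * l.1 + b) (2 * m.1 + c) (2 * κ.1 + a)
    have q3 := h.bd4 (2 * m.1 + c) (2 * κ.1 + a) (2 * l.1 + b)
    rw [ea, eb, ec] at q1 q2 q3
    have gk := gg_pos h.dat κ.1
    have gl := gg_pos h.dat l.1
    have gm := gg_pos h.dat m.1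
    obtain ⟨M, hM⟩ : ∃ M, M = mxG lam κ l m := ⟨_, rfl⟩
    have Mk : GG lam κ.1 ≤ M := by rw [hM]; exact le_max_left _ _
    have Ml : GG lam l.1 ≤ M := by rw [hM]; exact (le_max_left _ _).trans (le_max_right _ _)
    have Mm : GG lam m.1 ≤ M := by rw [hM]; exact (le_max_right _ _).trans (le_max_right _ _)
    have Gk : gg lam κ.1 ≤ GG lam κ.1 := by unfold GG; linarith
    have Gl : gg lam l.1 ≤ GG lam l.1 := by unfold GG; linarith
    have Gm : gg lam m.1 ≤ GG lam m.1 := by unfold GG; linarith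
    have M0 : 0 ≤ M := by linarith
    have key : ∀ x : ℝ, 0 ≤ x → x ≤ M → K * x ^ 5 ≤ K * M ^ 5 := fun x hx hxM =>
      mul_le_mul_of_nonneg_left (pow_le_pow_left₀ hx hxM 5) (by linarith)
    have r1 := q1.trans (key _ ((by linarith : 0 ≤ GG lam κ.1).trans (le_max_left _ _))
      (max_le Mk (max_le Ml Mm)))
    have r2 := q2.trans (key _ ((by linarith : 0 ≤ GG lam l.1).trans (le_max_left _ _))
      (max_le Ml (max_le Mm Mk)))
    have r3 := q3.trans (key _ ((by linarith : 0 ≤ GG lam m.1).trans (le_max_left _ _))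
      (max_le Mm (max_le Mk Ml)))
    have R0 : 0 ≤ K * M ^ 5 := mul_nonneg (by linarith) (pow_nonneg M0 5)
    have fin := three (cut N m.1) (cut N κ.1) (cut N l.1) _ _ _ 1 (K * M ^ 5) zero_le_one R0
      (cut_nonneg _ _) (cut_nonneg _ _) (cut_nonneg _ _)
      ((cut_le _ _).trans (by norm_num)) ((cut_le _ _).trans (by norm_num))
      ((cut_le _ _).trans (by norm_num)) r1 r2 r3
    unfold sigw
    rw [ea, eb, ec, ← hM]
    calc _ ≤ 16 * (1 ^ 4 * (K * M ^ 5)) := fin
      _ = 16 * K * M ^ 5 := by ring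
  · apply cx_pow_le
    intro a ha b hb c hc
    exact sigw_pow h.dat N (half _ a ha) (half _ b hb) (half _ c hc)
  · apply cx_pow_le
    intro a ha b hb c hc
    rw [sigw_rot]
    exact sigw_pow h.dat N (half _ c hc) (half _ a ha) (half _ b hb)
  · apply cx_pow_le
    intro a ha b hb c hc
    rw [← sigw_rot]
    exact sigw_pow h.dat N (half _ b hb) (half _ c hc) (half _ a ha)

end Pool.Agent.U423.EE
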